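import Pool.Agent.U483.KO.Main
import Pool.Agent.U483.KO.Dens

/-!
# Dense ordinary reduction and the Grothendieck ring of varieties

Let `A` be a finitely generated domain of characteristic zero with fraction field `K`. `𝓜` is the category of the pure
motives over `K` for absolute Hodge cycles, `H` gives the pieces `gr^W_w h^i_c(X)` of the cohomology with compact
support, and `S` the slopes of Frobenius (Newton polygon) and the Hodge-Tate weights (Hodge polygon) of the motives with
good reduction at a closed point `s` of `Spec A` (for a lift `Spec W(k(s)) ⟶ Spec A` of `s`; direct factors of the
motives of schemes which are smooth and projective over a neighbourhood of `s`). `ord s X` means that the fibre over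
`s` of a smooth projective model of `X` is ordinary (Bloch and Kato); for all `s` in a nonempty open set it means that the
Newton polygon of `h^i(X)` is the Hodge polygon for all `i` (Bloch and Kato). The structures `CompactCoh`,
`IsMultiplicative`, `Slopes` and `IsOrdinaryReduction` list the known properties which are used.

* Let `F` be a filter of sets of closed points which contains the nonempty open sets. A smooth projective `X` has
  ordinary reduction at the points of a member of `F` if and only if a multiple of its class is in the subring of
  `K_0(Var_K)` generated by the smooth projective varieties with this property, and by all varieties built from them.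
* If `n [X] = n [X']` then `X` and `X'` have ordinary reduction at the same closed points of some nonempty open set.
  If `n [X]` is in the ring generated by the powers of one variety `Y` then the same is true for one inclusion. So if
  ordinary reduction is dense for `Y`, it is dense for `X`.
-/

set_option autoImplicit false

open CategoryTheory AlgebraicGeometry Filter Pool.Agent.Y116.UV Pool.Agent.U483.KM
  Pool.Agent.U483.GU Pool.Agent.U483.KP Pool.Agent.U483.KO

namespace Pool.Agent.Results.MP_adc574_ag.GrothendieckRing

universe w x

theorem result (A : Type) [CommRing A] [IsDomain A] [CharZero A] [Algebra.FiniteType ℤ A]
    (K : Type) [Field K] [Algebra A K] [IsFractionRing A K] (𝓜 : Type w) [Category.{x} 𝓜]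
    [Abelian 𝓜] [Linear ℚ 𝓜] [MonoidalCategory 𝓜] (H : CompactCoh.{w, x} K 𝓜) (L : 𝓜)
    (hH : IsMultiplicative H L) (S : Slopes.{w, x} 𝓜 (MaximalSpectrum A))
    (ord : MaximalSpectrum A → Sch K → Prop)
    (hO : IsOrdinaryReduction H L S (almostAll A) ord) :
    -- ordinary reduction at the points of a member of a filter, in terms of a multiple of the class
    Criterion ord (almostAll A) ∧
    -- dense ordinary reduction, if all members of the filter are dense
    BigOrdinary ord (almostAll A) IsDenseSet ∧
    -- the ring generated by one `Y`
    OneScheme ord (almostAll A) IsDenseSet ∧
    -- equal classes
    Invariance ord (almostAll A) IsDenseSet :=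
  main hH hO IsDenseSet fun _ _ h hT => hT.mono h

end Pool.Agent.Results.MP_adc574_ag.GrothendieckRing
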