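import Pool.Agent.U644.OP.Alg

/-!
# Dense ordinary reduction: one prime of ordinary reduction for every variety over `ℚ` suffices

Q1 says that for every smooth projective scheme over the spectrum of a finitely generated domain `A` of characteristic
zero, with connected geometric fibres, the closed points with ordinary fibre are dense in `Spec A`.

Theorem.  The following are equivalent:
1. Q1;
2. every smooth projective (geometrically connected) variety over `ℚ` has *one* prime of good ordinary reduction;
3. for all number fields `F`, all number fields `L` which are contained in a CM field, and every finite family of smooth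
   projective varieties over `F` there are infinitely many prime numbers `p` which split completely in `L` such that all
   members of the family have good ordinary reduction at all places of `F` above `p`.

The same is true for the class of abelian varieties and abelian schemes in place of all smooth projective varieties (Q1
is open for abelian varieties of dimension at least three).

So a counterexample to Q1, for any ring `A` and any nonempty open subset of `Spec A` without ordinary closed points, gives
a variety over `ℚ` which does not have good ordinary reduction at any prime.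

Proof.  (2) ⟹ (3): take the product `R` of the Weil restrictions of the members of the family, and a finite set `S` of
primes.  Let `E` be an elliptic curve which is supersingular at all primes in `S`, and `B` an abelian variety with
complex multiplication which has good ordinary reduction only at primes which split completely in `L` (the product of
the Weil restrictions of the abelian varieties of all CM types of a Galois CM field containing `L`).  At a prime of
good ordinary reduction of `R × E × B` the varieties `E` and `B` have good ordinary reduction.  So this prime is not in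
`S`, it splits completely in `L`, and `R` has good ordinary reduction if `S` was large enough (depending on `R` only).
(3) ⟹ (1): a nonempty open subset of `Spec A` has a point in a number field `F` (Hilbert's Nullstellensatz), and its
reductions modulo almost all places of `F` are closed points of `Spec A` (proved here).
-/

set_option autoImplicit false

namespace Pool.Agent.Results.MP_adc574_ag.OnePrimeSuffices

open NumberField IsDedekindDomain Pool.Agent.U644.OP

/-- The data: varieties over number fields and their reductions, and smooth projective schemes over rings. Examples: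
all smooth projective geometrically connected varieties, or all abelian varieties (abelian schemes). -/
structure Theory where
  /-- the varieties over the number field `F` -/
  Var : (F : Type) → [Field F] → [NumberField F] → Type
  /-- `X` has good ordinary reduction at the place `v` -/
  Ord : {F : Type} → [Field F] → [NumberField F] → Var F → HeightOneSpectrum (𝓞 F) → Prop
  /-- the smooth projective schemes with connected geometric fibres over `Spec A` -/
  Model : (A : Type) → [CommRing A] → Type
  /-- the fibre at the closed point (maximal ideal) is ordinary -/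
  OrdAt : {A : Type} → [CommRing A] → Model A → Ideal A → Prop
  /-- the pull-back of a scheme over `A` to a number field -/
  pull : {A : Type} → [CommRing A] → {F : Type} → [Field F] → [NumberField F] → (A →+* F) → Model A → Var F
  /-- the abelian varieties over `ℚ` -/
  Ab : Set (Var ℚ)

/-- `X` has good ordinary reduction at all places above the prime number `p`. -/
def Theory.OrdP (T : Theory) {F : Type} [Field F] [NumberField F] (X : T.Var F) (p : ℕ) : Prop :=
  ∀ v : HeightOneSpectrum (𝓞 F), (p : 𝓞 F) ∈ v.asIdeal → T.Ord X v

/-- The prime number `p` splits completely in `L`: there are `[L : ℚ]` places above it. -/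
def Splits (p : ℕ) (L : Type) [Field L] [NumberField L] : Prop :=
  Nat.card {v : HeightOneSpectrum (𝓞 L) // (p : 𝓞 L) ∈ v.asIdeal} = Module.finrank ℚ L

/-- `L` is `ℚ` or it is contained in a CM field. -/
def InCM (L : Type) [Field L] [NumberField L] : Prop :=
  Module.finrank ℚ L = 1 ∨ ∃ (K : Type) (_ : Field K) (_ : NumberField K), IsCMField K ∧ Nonempty (L →+* K)

/-- The known facts which are used. -/
structure Facts (T : Theory) : Prop where
  /-- a variety over `ℚ` extends to a smooth projective scheme over `A = ℤ[1/N]`, and if the fibre at a closed point is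
  ordinary then the variety has good ordinary reduction at the corresponding prime -/
  spread : ∀ X : T.Var ℚ, ∃ (A : Type) (_ : CommRing A) (_ : IsDomain A) (_ : CharZero A) (M : T.Model A),
    Algebra.FiniteType ℤ A ∧ ∀ m : Ideal A, m.IsMaximal → T.OrdAt M m → ∃ p, p.Prime ∧ T.OrdP X p
  /-- the fibre of `M` at the reduction modulo `v` of a point `φ` of `Spec A` in `F` is, for almost all `v`, ordinary if
  the fibre at `φ` has good ordinary reduction at `v` -/
  specialize : ∀ {A : Type} [CommRing A] [IsDomain A] [CharZero A], Algebra.FiniteType ℤ A → ∀ (M : T.Model A)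
    {F : Type} [Field F] [NumberField F] (φ : A →+* F), ∃ S : Set (HeightOneSpectrum (𝓞 F)), S.Finite ∧
    ∀ v ∉ S, ∀ ψ : A →+* 𝓞 F ⧸ v.asIdeal, IsRed φ v ψ → T.Ord (T.pull φ M) v → T.OrdAt M (RingHom.ker ψ)
  /-- Weil restriction -/
  weil : ∀ {F : Type} [Field F] [NumberField F] (X : T.Var F), ∃ R : T.Var ℚ, ∃ S : Set ℕ, S.Finite ∧
    ∀ p, p.Prime → p ∉ S → T.OrdP R p → T.OrdP X p
  /-- products of two varieties -/
  prod : ∀ X Y : T.Var ℚ, ∃ Z : T.Var ℚ, ∃ S : Set ℕ, S.Finite ∧
    ∀ p, p.Prime → p ∉ S → T.OrdP Z p → T.OrdP X p ∧ T.OrdP Y p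
  /-- the product of a variety and an abelian variety: if it has good ordinary reduction then so has the abelian
  variety, and outside a finite set of primes, which depends only on `X`, so has `X` -/
  prod_ab : ∀ X : T.Var ℚ, ∃ S : Set ℕ, S.Finite ∧ ∀ B ∈ T.Ab, ∃ Z : T.Var ℚ, ∀ p, p.Prime → T.OrdP Z p →
    T.OrdP B p ∧ (p ∉ S → T.OrdP X p)
  /-- products of two abelian varieties -/
  ab_mul : ∀ B ∈ T.Ab, ∀ B' ∈ T.Ab, ∃ C ∈ T.Ab, ∀ p, p.Prime → T.OrdP C p → T.OrdP B p ∧ T.OrdP B' p
  /-- elliptic curves with supersingular reduction at given primes -/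
  supersingular : ∀ S : Set ℕ, S.Finite → ∃ E ∈ T.Ab, ∀ p ∈ S, p.Prime → ¬ T.OrdP E p
  /-- an abelian variety with complex multiplication whose primes of good ordinary reduction split completely in `L`, if
  `L` is contained in a CM field -/
  cm : ∀ (L : Type) [Field L] [NumberField L], InCM L → ∃ B ∈ T.Ab, ∀ p, p.Prime → T.OrdP B p → Splits p L

/-- Q1: the closed points with ordinary fibre are dense, for all schemes over all finitely generated domains of
characteristic zero. -/
def DenseOrdinary (T : Theory) : Prop :=
  ∀ (A : Type) [CommRing A] [IsDomain A] [CharZero A], Algebra.FiniteType ℤ A → ∀ M : T.Model A,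
    Dense {s : PrimeSpectrum A | s.asIdeal.IsMaximal ∧ T.OrdAt M s.asIdeal}

/-- Every variety over `ℚ` has one prime of good ordinary reduction. -/
def OnePrime (T : Theory) : Prop := ∀ X : T.Var ℚ, ∃ p, p.Prime ∧ T.OrdP X p

/-- Finite families of varieties over number fields have infinitely many common ordinary primes which split completely
in a given number field which is contained in a CM field. -/
def InfinitelyMany (T : Theory) : Prop :=
  ∀ (F : Type) [Field F] [NumberField F] (ι : Type) [Finite ι] (X : ι → T.Var F) (L : Type) [Field L]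
    [NumberField L], InCM L → {p : ℕ | p.Prime ∧ Splits p L ∧ ∀ i, T.OrdP (X i) p}.Infinite

lemma inCM_rat : InCM ℚ := Or.inl (Module.finrank_self ℚ)

lemma family {T : Theory} (hT : Facts T) {F : Type} [Field F] [NumberField F] {ι : Type} [Finite ι]
    (X : ι → T.Var F) : ∃ R : T.Var ℚ, ∃ S : Set ℕ, S.Finite ∧
      ∀ p, p.Prime → p ∉ S → T.OrdP R p → ∀ i, T.OrdP (X i) p := by
  classical
  have := Fintype.ofFinite ι
  have key : ∀ J : Finset ι, ∃ R : T.Var ℚ, ∃ S : Set ℕ, S.Finite ∧
      ∀ p, p.Prime → p ∉ S → T.OrdP R p → ∀ i ∈ J, T.OrdP (X i) p := by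
    intro J
    induction J using Finset.induction_on with
    | empty =>
      obtain ⟨B, _, _⟩ := hT.cm ℚ inCM_rat
      exact ⟨B, ∅, Set.finite_empty, fun p _ _ _ i hi => absurd hi (Finset.notMem_empty i)⟩
    | insert j J _ ih =>
      obtain ⟨R, S, hS, h⟩ := ih
      obtain ⟨R', S', hS', h'⟩ := hT.weil (X j)
      obtain ⟨Z, S'', hS'', h''⟩ := hT.prod R R'
      refine ⟨Z, S ∪ S' ∪ S'', (hS.union hS').union hS'', fun p hp hpS hZ i hi => ?_⟩
      simp only [Set.mem_union, not_or] at hpS
      obtain ⟨h1, h2⟩ := h'' p hp hpS.2 hZ
      rcases Finset.mem_insert.mp hi with rfl | hi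
      · exact h' p hp hpS.1.2 h2
      · exact h p hp hpS.1.1 h1 i hi
  obtain ⟨R, S, hS, h⟩ := key Finset.univ
  exact ⟨R, S, hS, fun p hp hpS hR i => h p hp hpS hR i (Finset.mem_univ i)⟩

lemma infinitelyMany {T : Theory} (hT : Facts T) (h : OnePrime T) : InfinitelyMany T := by
  intro F _ _ ι _ X L _ _ hL hfin
  obtain ⟨R, S, hS, hR⟩ := family hT X
  obtain ⟨S', hS', hR'⟩ := hT.prod_ab R
  obtain ⟨E, hE, hE'⟩ := hT.supersingular
    (S ∪ S' ∪ {p : ℕ | p.Prime ∧ Splits p L ∧ ∀ i, T.OrdP (X i) p}) ((hS.union hS').union hfin)
  obtain ⟨B, hB, hB'⟩ := hT.cm L hL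
  obtain ⟨C, hC, hC'⟩ := hT.ab_mul E hE B hB
  obtain ⟨Z, hZ⟩ := hR' C hC
  obtain ⟨p, hp, hord⟩ := h Z
  obtain ⟨h1, h2⟩ := hZ p hp hord
  obtain ⟨h3, h4⟩ := hC' p hp h1
  have h5 : p ∉ S ∪ S' ∪ {p : ℕ | p.Prime ∧ Splits p L ∧ ∀ i, T.OrdP (X i) p} := fun hmem => hE' p hmem hp h3
  simp only [Set.mem_union, not_or] at h5
  exact h5.2 ⟨hp, hB' p hp h4, hR p hp h5.1.1 (h2 h5.1.2)⟩

lemma dense_of_infinite {T : Theory} (hT : Facts T) (h : InfinitelyMany T) : DenseOrdinary T := by
  intro A _ _ _ hA M
  rw [dense_iff_inter_open]
  intro U hU hne
  obtain ⟨s, hs⟩ := hne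
  obtain ⟨_, ⟨_, ⟨a, rfl⟩, rfl⟩, hsa, haU⟩ := PrimeSpectrum.isBasis_basic_opens.exists_subset_of_mem_open hs hU
  have ha : a ≠ 0 := by
    rintro rfl
    exact hsa s.asIdeal.zero_mem
  obtain ⟨F, _, _, φ, hφ⟩ := exists_point A hA a ha
  obtain ⟨S₁, hS₁, h₁⟩ := hT.specialize hA M φ
  obtain ⟨S₂, hS₂, h₂⟩ := exists_red hA φ
  obtain ⟨S₃, hS₃, h₃⟩ := red_ne_zero φ hφ
  have hinf := h F Unit (fun _ => T.pull φ M) ℚ inCM_rat
  have hfin := finite_below ((hS₁.union hS₂).union hS₃)
  obtain ⟨p, ⟨hp, _, hord⟩, hpn⟩ := (hinf.sdiff hfin).nonempty
  obtain ⟨v, hv⟩ := exists_above F hp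
  have hvS : v ∉ S₁ ∪ S₂ ∪ S₃ := fun hmem => hpn ⟨hp, v, hmem, hv⟩
  simp only [Set.mem_union, not_or] at hvS
  obtain ⟨ψ, hψ⟩ := h₂ v hvS.1.2
  have hmax := ker_isMaximal v ψ
  refine ⟨⟨RingHom.ker ψ, hmax.isPrime⟩, haU ?_, hmax, ?_⟩
  · exact h₃ v hvS.2 ψ hψ
  · exact h₁ v hvS.1.1 ψ hψ (hord () v hv)

/-- **One prime suffices.**  The closed points with ordinary fibre are dense for all smooth projective schemes over all
finitely generated domains of characteristic zero, if and only if every smooth projective variety over `ℚ` has one prime
of good ordinary reduction, if and only if all finite families of varieties over number fields have infinitely many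
common ordinary primes which split completely in a given number field contained in a CM field. -/
theorem result (T : Theory) (hT : Facts T) :
    (DenseOrdinary T ↔ OnePrime T) ∧ (DenseOrdinary T ↔ InfinitelyMany T) := by
  have h12 : DenseOrdinary T → OnePrime T := by
    intro h X
    obtain ⟨A, _, _, _, M, hA, hM⟩ := hT.spread X
    obtain ⟨s, hs, hs'⟩ := (h A hA M).nonempty
    exact hM s.asIdeal hs hs'
  have h23 : OnePrime T → InfinitelyMany T := infinitelyMany hT
  have h31 : InfinitelyMany T → DenseOrdinary T := dense_of_infinite hT
  exact ⟨⟨h12, fun h => h31 (h23 h)⟩, ⟨fun h => h23 (h12 h), h31⟩⟩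

end Pool.Agent.Results.MP_adc574_ag.OnePrimeSuffices
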