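import Pool.Agent.U8.TR.Ext

/-!
# Dense ordinary reduction and regular subdivisions of Newton polytopes

Let `K` be a field of characteristic `0` and `f = ∑ f_a x^a` a Laurent polynomial in `m` variables over
`K`, nondegenerate for its Newton polytope `Δ`. Let `X` be the closure of `f = 0` in a smooth projective
toric variety whose fan refines the normal fan of `Δ`, and `I` the set of the lattice points in the
interior of `Δ`. For example: hypersurfaces of degree `d` in `ℙ^m`, hyperelliptic and trigonal curves,
curves and surfaces in products of projective spaces and in all other toric varieties. In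
characteristic `p` the Frobenius of `H^{m-1}(X, O_X)`, which has a basis with index set `I`, is given by
the matrix of the coefficients of `x^(p u - v)` in `f^(p-1)`, `u, v ∈ I`, and `H^i(X, O_X) = 0` for
`0 < i < m - 1`. For curves (`m = 2`, genus `|I|`) and surfaces (`m = 3`) it is invertible if and only if
`X` is ordinary in the sense of Bloch and Kato.

Multiplication of `f` with a monomial `x^w` and translation of `I` by `w` does not change the matrix. So we
may assume that `f` is a polynomial and `I ⊂ ℕ^m`.

Let `O ⊂ K` be a valuation ring and `θ : O → κ` a local homomorphism to a field of characteristic `0`, for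
example the map to the residue field. The valuations of the coefficients of `f` define the regular
subdivision of `Δ`. Every `u ∈ I` is in the relative interior of one cell `Δ_u` of it, and the part of `f`
over `Δ_u` has, after a rescaling of the variables, a reduction `g_u` over `κ`: the initial form. The
support `V_u` of `g_u` consists of points of `Δ_u`, all vertices of `Δ_u` among them.

**Theorem.**
1. (Transfer.) Let `S` be a set of prime numbers. If the initial forms `g_u` have dense ordinary reduction
   above the primes of `S`, simultaneously and with respect to the `v ∈ I` with `V_v = V_u`, then so has `f`.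
   The set of primes does not change.
2. (Triangulations.) If all `V_u` are affinely independent, i.e. the `Δ_u` are simplices and `V_u` is the set
   of the vertices, and `D` is a common denominator of the barycentric coordinates of the `u`
   in the `Δ_u`, then `f` has dense ordinary reduction, above all large `p ≡ 1 mod D`. If all `u ∈ I` are
   vertices of the subdivision, then `D = 1`, and dense ordinary reduction holds above **all** large `p`.
3. (Explicit families.) Let `t ∈ K` be transcendental over a subfield `κ`, and let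
   `f = ∑_{a ∈ E} P_a(t) x^a`, where `E` is any finite set of exponents and `P_a ≠ 0` are any polynomials
   over `κ` whose degrees `e(a)` define a subdivision of `Δ` as in 2, for example any generic integers
   (Viro's patchworking polynomials `∑ b_a t^{e(a)} x^a`). Then 2 holds for `f`. For example, let `Φ` be
   **any** polynomial over `κ`, `b_u ≠ 0` in `κ` for `u ∈ I` and `f = Φ + ∑_{u ∈ I} b_u t^{N - |u|²} x^u` with `N`
   larger than `|a|²` for `a ∈ I ∪ supp Φ`; then `D = 1`.

All this also holds for finitely many `f_c` simultaneously, at the same closed points.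

Proof: choose one `u'` for every cell, and `g_u`, the scalings for `u'`. The matrix with the entries
`ρ_{u v} coeff_{p u - v} G_u^(p-1)`, where `G_u` is the rescaling of `f` with reduction `g_u` and `ρ_{u v}` is the
quotient of the scaling factors of `x^v` for `u` and for `v`, is the product of the Hasse-Witt matrix of `f`
with diagonal matrices. By convexity `ρ_{u v} ∈ O`, and `θ(ρ_{u v}) = 0` if `V_v ⊄ V_u`, so the image under `θ` is
block triangular with the Hasse-Witt matrices of the `g_u` as the diagonal blocks. It is carried to the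
closed points of `Spec A` by the theorems of Chevalley and Krull and the Jacobson property. In 2 the
blocks are diagonal with multinomial coefficients `(p-1)! / ∏ k_i!` on the diagonal.
-/

set_option autoImplicit false

open MvPolynomial

namespace Pool.Agent.Results.MP_adc574_ag.RegularSubdivisions

/-- The Hasse-Witt matrix of the polynomial `F` with respect to the finite set `I` of exponents: the
entry with indices `u, v ∈ I` is the coefficient of `x^{p u}` in `x^v F^{p - 1}`, that is, of
`x^{p u - v}` in `F^{p-1}`. -/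
noncomputable def hasseWitt {m : ℕ} {R : Type*} [CommRing R] (p : ℕ) (I : Finset (Fin m →₀ ℕ))
    (F : MvPolynomial (Fin m) R) : Matrix I I R :=
  Matrix.of fun u v => coeff (p • (u : Fin m →₀ ℕ)) (monomial (v : Fin m →₀ ℕ) 1 * F ^ (p - 1))

/-- The polynomials `f c` over `K` have dense ordinary reduction, above all large primes of `S`: for every
finitely generated subring `A` of `K` over which they are defined, every `a ≠ 0` in `A` and every large
prime `p ∈ S` there is a closed point of `Spec A` of characteristic `p`, with `a ≠ 0` there, at which all the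
Hasse-Witt matrices are invertible. -/
def DenseOrdinary {K : Type*} [Field K] {ι : Type*} (S : Set ℕ) (m : ι → ℕ)
    (I : ∀ c, Finset (Fin (m c) →₀ ℕ)) (f : ∀ c, MvPolynomial (Fin (m c)) K) : Prop :=
  ∀ A : Subalgebra ℤ K, A.FG → ∀ F : ∀ c, MvPolynomial (Fin (m c)) A,
    (∀ c, map (algebraMap A K) (F c) = f c) → ∀ a : A, a ≠ 0 →
    ∃ N : ℕ, ∀ p ∈ S, p.Prime → N ≤ p → ∃ M : Ideal A, M.IsMaximal ∧ (p : A) ∈ M ∧ a ∉ M ∧
      ∀ c, (hasseWitt p (I c) (map (Ideal.Quotient.mk M) (F c))).det ≠ 0

/-- The rescaling `F (x_1, …, x_m) ↦ F (τ_1 x_1, …, τ_m x_m)`. -/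
noncomputable def rescale {m : ℕ} {R : Type*} [CommRing R] (τ : Fin m → R) :
    MvPolynomial (Fin m) R →ₐ[R] MvPolynomial (Fin m) R :=
  aeval fun i => C (τ i) * X i

/-- `g` is an initial form of `f`: the image under `θ : O → κ` of a rescaling `μ f (τ_1 x_1, …, τ_m x_m)`
with coefficients in the valuation ring `O`, where `μ ≠ 0` and `τ_i ≠ 0`. -/
def IsInitialForm {K κ : Type*} [Field K] [Field κ] (O : ValuationSubring K) (θ : O →+* κ) {m : ℕ}
    (f : MvPolynomial (Fin m) K) (g : MvPolynomial (Fin m) κ) : Prop :=
  ∃ (G : MvPolynomial (Fin m) O) (μ : K) (τ : Fin m → K), μ ≠ 0 ∧ (∀ i, τ i ≠ 0) ∧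
    map O.subtype G = C μ * rescale τ f ∧ map θ G = g

/-- `u` is in the relative interior of the convex hull of the finite set `V`: it is a convex combination
of the elements of `V` with positive coefficients in `(1/D) ℤ`. -/
def RelInt {m : ℕ} (D : ℕ) (V : Finset (Fin m →₀ ℕ)) (u : Fin m →₀ ℕ) : Prop :=
  ∃ n : (Fin m →₀ ℕ) → ℕ, (∀ a ∈ V, 1 ≤ n a) ∧ ∑ a ∈ V, n a = D ∧ ∑ a ∈ V, n a • a = D • u

/-- The elements of the finite set `V` are affinely independent. -/
def AffInd {m : ℕ} (V : Finset (Fin m →₀ ℕ)) : Prop :=
  ∀ z : (Fin m →₀ ℕ) → ℤ, ∑ a ∈ V, z a = 0 → (∀ i, ∑ a ∈ V, z a * (a i : ℤ) = 0) →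
    ∀ a ∈ V, z a = 0

/-- The pairing `l · a` of an integral vector and an exponent. -/
def dot {m : ℕ} (l : Fin m → ℤ) (a : Fin m →₀ ℕ) : ℤ := ∑ i, l i * (a i : ℤ)

/-- The exponents `a` in the support of `P = ∑ P_a(T) x^a` with `N deg P_a + l · a = w`. -/
noncomputable def cell {m : ℕ} {κ : Type*} [Field κ] (P : MvPolynomial (Fin m) (Polynomial κ))
    (N : ℕ) (l : Fin m → ℤ) (w : ℤ) : Finset (Fin m →₀ ℕ) :=
  P.support.filter fun a => N * ((coeff a P).natDegree : ℤ) + dot l a = w

theorem result {K κ : Type*} [Field K] [Field κ] [CharZero κ] {ι : Type*} [Fintype ι] (m : ι → ℕ)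
    (I : ∀ c, Finset (Fin (m c) →₀ ℕ)) :
    -- (1) transfer from the initial forms `g c u`
    (∀ (O : ValuationSubring K) (θ : O →+* κ), IsLocalHom θ →
      ∀ (S : Set ℕ) (f : ∀ c, MvPolynomial (Fin (m c)) K)
        (g : ∀ c, (Fin (m c) →₀ ℕ) → MvPolynomial (Fin (m c)) κ),
      (∀ c, ∀ u ∈ I c, IsInitialForm O θ (f c) (g c u) ∧
        ∃ D, 0 < D ∧ RelInt D (g c u).support u) →
      DenseOrdinary (ι := Σ c, ↥(I c)) S (fun x => m x.1)
        (fun x => (I x.1).filter fun v => (g x.1 v).support = (g x.1 x.2).support)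
        (fun x => g x.1 x.2) →
      DenseOrdinary S m I f) ∧
    -- (2) triangulations
    (∀ (O : ValuationSubring K) (θ : O →+* κ), IsLocalHom θ →
      ∀ (D : ℕ), 0 < D → ∀ f : ∀ c, MvPolynomial (Fin (m c)) K,
      (∀ c, ∀ u ∈ I c, ∃ g, IsInitialForm O θ (f c) g ∧ AffInd g.support ∧
        RelInt D g.support u) →
      DenseOrdinary {p | p ≡ 1 [MOD D]} m I f) ∧
    -- (3) explicit families
    (∀ [Algebra κ K] (t : K), Transcendental κ t → ∀ (D : ℕ), 0 < D →
      ∀ P : ∀ c, MvPolynomial (Fin (m c)) (Polynomial κ),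
      (∀ c, ∀ u ∈ I c, ∃ (N : ℕ) (l : Fin (m c) → ℤ) (w : ℤ), 0 < N ∧
        (∀ a ∈ (P c).support, N * ((coeff a (P c)).natDegree : ℤ) + dot l a ≤ w) ∧
        AffInd (cell (P c) N l w) ∧ RelInt D (cell (P c) N l w) u) →
      DenseOrdinary {p | p ≡ 1 [MOD D]} m I fun c =>
        map (Polynomial.aeval t : Polynomial κ →ₐ[κ] K).toRingHom (P c)) := by
  refine ⟨fun O θ hθ S f g hg h => ?_, fun O θ hθ D hD f hf => ?_, fun t ht D hD P hP =>
    Pool.Agent.U8.TR.family3 t ht hD m I P hP⟩
  · classical
    have hex : ∀ c u, ∃ (G : MvPolynomial (Fin (m c)) O) (μ : K) (τ : Fin (m c) → K), u ∈ I c →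
        μ ≠ 0 ∧ (∀ i, τ i ≠ 0) ∧ map O.subtype G = C μ * rescale τ (f c) ∧ map θ G = g c u := by
      intro c u
      by_cases hu : u ∈ I c
      · obtain ⟨⟨G, μ, τ, h1, h2, h3, h4⟩, -⟩ := hg c u hu
        exact ⟨G, μ, τ, fun _ => ⟨h1, h2, h3, h4⟩⟩
      · exact ⟨0, 0, 0, fun h1 => absurd h1 hu⟩
    choose G μ τ hG using hex
    refine Pool.Agent.U8.TR.transfer O θ S m I f G μ τ (fun c u hu => (hG c u hu).1)
      (fun c u hu => (hG c u hu).2.1) (fun c u hu => (hG c u hu).2.2.1)
      (fun c u hu => ?_) ?_
    · rw [(hG c u hu).2.2.2]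
      exact (hg c u hu).2
    · have e1 : (fun x : Σ c, ↥(I c) => map θ (G x.1 x.2)) =
          fun x : Σ c, ↥(I c) => g x.1 x.2 := by
        funext x
        exact (hG x.1 x.2 x.2.2).2.2.2
      have e2 : (fun x : Σ c, ↥(I c) => (I x.1).filter fun v => (map θ (G x.1 v)).support =
          (map θ (G x.1 x.2)).support) = fun x : Σ c, ↥(I c) => (I x.1).filter fun v =>
            (g x.1 v).support = (g x.1 x.2).support := by
        funext x
        refine Finset.filter_congr fun v hv => ?_
        rw [(hG x.1 x.2 x.2.2).2.2.2, (hG x.1 v hv).2.2.2]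
      rw [e1, e2]
      exact h
  · have hex : ∀ c u, ∃ (G : MvPolynomial (Fin (m c)) O) (μ : K) (τ : Fin (m c) → K), u ∈ I c →
        μ ≠ 0 ∧ (∀ i, τ i ≠ 0) ∧ map O.subtype G = C μ * rescale τ (f c) ∧
          RelInt D (map θ G).support u ∧ AffInd (map θ G).support := by
      intro c u
      by_cases hu : u ∈ I c
      · obtain ⟨g, ⟨G, μ, τ, h1, h2, h3, h4⟩, h5, h6⟩ := hf c u hu
        refine ⟨G, μ, τ, fun _ => ⟨h1, h2, h3, ?_, ?_⟩⟩
        · rw [h4]; exact h6
        · rw [h4]; exact h5
      · exact ⟨0, 0, 0, fun h1 => absurd h1 hu⟩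
    choose G μ τ hG using hex
    exact Pool.Agent.U8.TR.simplicial O θ hD m I f G μ τ (fun c u hu => (hG c u hu).1)
      (fun c u hu => (hG c u hu).2.1) (fun c u hu => (hG c u hu).2.2.1)
      (fun c u hu => (hG c u hu).2.2.2)

end Pool.Agent.Results.MP_adc574_ag.RegularSubdivisions
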