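import Pool.Agent.U8.OD.Pencil
import Pool.Agent.U8.OD.Arr

/-!
# Dense ordinary reduction of hypersurfaces with a totally degenerate specialization

Let `k` be a field of characteristic `0` and `X ⊂ ℙ^m` a hypersurface `F = 0` of degree
`d = m + 1 + n` over `k`. In characteristic `p` the Frobenius of `H^{m-1}(X, O_X) = H^m(ℙ^m, O(-d))` is
given by the matrix `hasseWitt p n F` below. For smooth curves (`m = 2`) and smooth surfaces (`m = 3`) it
is invertible if and only if `X` is ordinary in the sense of Bloch and Kato. For a nodal plane
curve `F = 0` it is invertible if and only if the normalization is ordinary. For a complete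
intersection `Y = V(F_1, …, F_r)` of dimension `m - r` the Frobenius of `H^{m-r}(Y, O_Y)` is the restriction
of the one of `H^m(ℙ^m, O(-d))` given by `F = F_1 ⋯ F_r` to a subspace; so if `hasseWitt p n F` is invertible
and `Y` is a smooth curve or surface, then `Y` is ordinary.

**Theorem.** Let `O ⊂ k` be a subring and `θ : O → κ` a homomorphism to a field of characteristic `0`
(for example a valuation ring of `k` and its residue field, or an algebraic closure of it). Let
`F_c` (`c ∈ ι`) be finitely many forms over `k`, of degrees `m_c + n_c + 1` in `m_c + 1` variables, such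
that for each `c` a form projectively equivalent over `k` to `F_c` has coefficients in `O` and its image
under `θ` is totally degenerate. Then for every finitely generated ring `A ⊂ k` over which the `F_c`
are defined, and every `a ≠ 0` in `A`: for **all large prime numbers** `p` there is a closed point of
`Spec A` of characteristic `p`, with `a ≠ 0` there, at which the Hasse-Witt matrices of all the `F_c` are
invertible. In particular, for smooth plane curves and surfaces in `ℙ^3` (and complete intersection
curves and surfaces, products of such) the ordinary closed points are dense.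

*Totally degenerate*: `G` over `κ` has so many crossing points that no form `≠ 0` of degree `n`
vanishes at all of them. A *crossing point* is a point `g e_0`, `g ∈ GL_{m+1}(κ)`, with
`G (g x) = c x_0^{n+1} x_1 ⋯ x_m + (terms of higher weight)`, `c ≠ 0`, for some weights `w_i ≥ 0` of
`x_1, …, x_m` (and weight `0` of `x_0`). For `w_i = 1` this is a point of multiplicity `m` whose tangent
cone consists of `m` independent hyperplanes, like a node of a plane curve or a point of a surface where
three smooth sheets meet transversally; `x_1 x_2 x_3 + x_1^a + x_2^b + x_3^c` with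
`1/a + 1/b + 1/c < 1` is an example for other weights.

The second part shows that unions of `m + n + 1` hyperplanes in general position are totally
degenerate. The third part is an example: **for all forms `Φ` and all totally degenerate forms `Γ` over
a field `κ ⊂ k`, and `t ∈ k` transcendental over `κ`, the hypersurface `Φ + t Γ = 0` has dense ordinary
reduction, above all large `p`** (`Γ` a product of linear forms in general position, for instance).

Proof: in characteristic `p`, if the matrix of `G` is singular then there is a form `P ≠ 0` of degree `n`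
such that all coefficients of `G^{p-1} P` at exponents `≡ -1` mod `p` vanish. So `G^{p-1} P` is a sum of
derivatives; this is invariant under invertible linear substitutions. At a crossing point the
coefficient of `(x_0^{n+1} x_1 ⋯ x_m)^{p-1} x_0^n` is `c^{p-1} P(g e_0)`. So `P` vanishes at all crossing
points. The property is carried from the specialization to closed points of `Spec A` by the theorems of
Chevalley and Krull and the Jacobson property.
-/

set_option autoImplicit false

open MvPolynomial

namespace Pool.Agent.Results.MP_adc574_ag.TotallyDegenerateSpecialization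

/-- The exponents of the monomials of degree `n` in `x_0, …, x_m`. -/
abbrev Exponent (m n : ℕ) : Type := ↥((Finset.univ : Finset (Fin (m + 1))).finsuppAntidiag n)

/-- The Hasse-Witt matrix of the hypersurface `F = 0` of degree `m + n + 1` in `ℙ^m`: the entry with
indices `u, v` (exponents of degree `n`) is the coefficient of `x^{p u + (p - 1, …, p - 1)}` in
`x^v F^{p - 1}`, that is, of `x^{p (u + 1) - (v + 1)}` in `F^{p-1}`. -/
noncomputable def hasseWitt {m : ℕ} {R : Type*} [CommRing R] (p n : ℕ)
    (F : MvPolynomial (Fin (m + 1)) R) : Matrix (Exponent m n) (Exponent m n) R :=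
  Matrix.of fun u v => coeff
    (p • (u : Fin (m + 1) →₀ ℕ) + Finsupp.equivFunOnFinite.symm fun _ => p - 1)
    (monomial (v : Fin (m + 1) →₀ ℕ) 1 * F ^ (p - 1))

/-- The linear substitution `F (x) ↦ F (g x)`. -/
noncomputable def subst {m : ℕ} {R : Type*} [CommRing R]
    (g : Matrix (Fin (m + 1)) (Fin (m + 1)) R) :
    MvPolynomial (Fin (m + 1)) R →ₐ[R] MvPolynomial (Fin (m + 1)) R :=
  aeval fun i => ∑ j, C (g i j) * X j

/-- `g e_0` is a crossing point of `G = 0`: the terms of `G (g x)` of smallest weight, for some weights
`w_i` of `x_1, …, x_m`, are `c x_0^{n+1} x_1 ⋯ x_m` only, with `c ≠ 0`. -/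
def IsCrossing {m : ℕ} {κ : Type*} [Field κ] (n : ℕ) (G : MvPolynomial (Fin (m + 1)) κ)
    (g : Matrix (Fin (m + 1)) (Fin (m + 1)) κ) : Prop :=
  g.det ≠ 0 ∧ ∃ (w : Fin m → ℕ) (c : κ), c ≠ 0 ∧
    ∀ a : Fin (m + 1) →₀ ℕ, ∑ i : Fin m, w i * a i.succ ≤ ∑ i, w i →
    coeff a (subst g G) =
      if a = Finsupp.equivFunOnFinite.symm (fun i => if i = 0 then n + 1 else 1) then c else 0

/-- No form `≠ 0` of degree `n` vanishes at all crossing points of `G = 0`. -/
def TotallyDegenerate {m : ℕ} {κ : Type*} [Field κ] (n : ℕ) (G : MvPolynomial (Fin (m + 1)) κ) :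
    Prop :=
  ∀ P : MvPolynomial (Fin (m + 1)) κ, P.IsHomogeneous n →
    (∀ g, IsCrossing n G g → eval (fun i => g i 0) P = 0) → P = 0

/-- The hypersurfaces `F c = 0` over `A` have dense ordinary reduction, above all large primes: for
every `a ≠ 0` and every large prime `p` there is a closed point of `Spec A` of characteristic `p`, with
`a ≠ 0` there, at which all the Hasse-Witt matrices are invertible. -/
def DenseOrdinary {A : Type*} [CommRing A] {ι : Type*} (m n : ι → ℕ)
    (F : ∀ c, MvPolynomial (Fin (m c + 1)) A) : Prop :=
  ∀ a : A, a ≠ 0 → ∃ N : ℕ, ∀ p : ℕ, N ≤ p → p.Prime →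
    ∃ M : Ideal A, M.IsMaximal ∧ (p : A) ∈ M ∧ a ∉ M ∧
      ∀ c, (hasseWitt p (n c) (map (Ideal.Quotient.mk M) (F c))).det ≠ 0

theorem result {k κ : Type*} [Field k] [CharZero k] [Field κ] [CharZero κ]
    -- a finitely generated ring `A` and forms `F c` over `A`, of degree `m c + n c + 1`
    (A : Subalgebra ℤ k) (hA : A.FG) {ι : Type*} [Fintype ι] (m n : ι → ℕ)
    (F : ∀ c, MvPolynomial (Fin (m c + 1)) A)
    (hF : ∀ c, (F c).IsHomogeneous (m c + n c + 1)) :
    -- (1) the criterion: `F₀ c` over `O` is projectively equivalent to `F c` over `k`, with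
    -- totally degenerate image under `θ : O → κ`
    (∀ (O : Subring k) (θ : O →+* κ) (F₀ : ∀ c, MvPolynomial (Fin (m c + 1)) O) (lam : ι → k)
        (h : ∀ c, Matrix (Fin (m c + 1)) (Fin (m c + 1)) k), (∀ c, (h c).det ≠ 0) →
        (∀ c, map O.subtype (F₀ c) = C (lam c) * subst (h c) (map (algebraMap A k) (F c))) →
        (∀ c, TotallyDegenerate (n c) (map θ (F₀ c))) → DenseOrdinary m n F) ∧
    -- (2) products of `m' + n' + 1` linear forms in general position are totally degenerate
    (∀ (m' n' : ℕ) (l : Fin (m' + n' + 1) → Fin (m' + 1) → κ),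
        (∀ e : Fin (m' + 1) → Fin (m' + n' + 1), Function.Injective e →
          (Matrix.of fun i j => l (e i) j).det ≠ 0) →
        TotallyDegenerate n' (∏ i, ∑ j, C (l i j) * X j)) ∧
    -- (3) `F = Φ + t Γ` with `Γ` totally degenerate and `t` transcendental over `κ`
    (∀ [Algebra κ k] (t : k), Transcendental κ t → ∀ Φ Γ : ∀ c, MvPolynomial (Fin (m c + 1)) κ,
        (∀ c, TotallyDegenerate (n c) (Γ c)) →
        (∀ c, map (algebraMap A k) (F c) =
          map (algebraMap κ k) (Φ c) + C t * map (algebraMap κ k) (Γ c)) →
        DenseOrdinary m n F) :=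
  ⟨fun O θ F₀ lam h hh hF₀ hdeg a ha =>
      Pool.Agent.U8.OD.main O θ m n A hA F hF F₀ lam h hh hF₀ hdeg a ha,
    fun _ _ l hl => Pool.Agent.U8.OD.totDeg_arr l hl,
    fun t ht Φ Γ hdeg hF₀ a ha =>
      Pool.Agent.U8.OD.pencil m n t ht Φ Γ hdeg A hA F hF hF₀ a ha⟩

end Pool.Agent.Results.MP_adc574_ag.TotallyDegenerateSpecialization
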